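import Mathlib
import Pool.Agent.U364.ST.Gen

/-!
# Consecutive primes which all start almost prime Cunningham chains of one exact length

`c_j(p) = 2 ^ j (p + 1) - 1` are the terms of the Cunningham chain of the first kind generated from `p`. Let `K ≥ 1` be a
length. A prime `p` starts an almost prime chain of exact length `K` (parameters `r`, `w`) if the numbers
`c_1(p), ..., c_(K-1)(p)` have at most `r` prime factors, all of them at least `w`, and `c_K(p)` is composite.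

Consider the patterns `0 = h 0 < h 1 < ... < h k ≤ X` all of whose distances are shifted primes: `h j - h i + σ` is PRIME for
all `i < j`, where `σ = 1` or `σ = -1` (no condition for `σ = 0`). For all large `X` a positive proportion of them occurs in
EVERY interval `(N, 2 N]` with `N ≥ N₀(X)` as the pattern of `k + 1` CONSECUTIVE primes, each of which starts an almost prime
chain of exact length `K`; `r` and `δ > 0` (`w = N ^ δ`) depend only on `K` and `k`. The pattern is found at all the terms of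
an arithmetic progression of any given length `l` with difference at most `(log N) ^ b`.

The proof: the theorem on strings of consecutive primes with almost prime companions (starting files,
`Pool.Agent.R498.MP`), the counting of patterns of shifted primes (helper288, `Pool.Agent.U288.SP`), and a residue class
in which `c_K` has a fixed prime factor while `c_0, ..., c_(K-1)` have not.
-/

set_option autoImplicit false

namespace Pool.Agent.Results.MP_77cbc6_nt.ExactAlmostChains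

open Filter Finset

/-- the `j`-th term of the Cunningham chain of the first kind generated from `p` -/
def ch (j p : ℕ) : ℕ := 2 ^ j * (p + 1) - 1

/-- The numbers `c_1(p), ..., c_(K-1)(p)` have at most `r` prime factors, counted with multiplicity, all of them at
least `w`, and `c_K(p)` is not prime. -/
def AlmostChain (K r : ℕ) (w : ℝ) (p : ℕ) : Prop :=
  (∀ j, 1 ≤ j → j < K → (ch j p).primeFactorsList.length ≤ r ∧ ∀ q : ℕ, q.Prime → q ∣ ch j p → w ≤ q) ∧
    ¬ (ch K p).Prime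

open Classical in
/-- The patterns `0 = h 0 < h 1 < ... < h k ≤ X` with `h j - h i + σ` prime for all `i < j` (no condition if
`σ = 0`). -/
noncomputable def patterns (σ : ℤ) (k X : ℕ) : Finset (Fin (k + 1) → ℕ) :=
  (Fintype.piFinset (fun _ : Fin (k + 1) => range (X + 1))).filter (fun h => h 0 = 0 ∧ StrictMono h ∧
    ∀ i j, i < j → σ ≠ 0 → ((h j : ℤ) - h i + σ).toNat.Prime)

/-- The number of the conditions: `k (k + 1) / 2` if `σ ≠ 0`, and `0` if `σ = 0`. -/
def conditions (σ : ℤ) (k : ℕ) : ℕ := if σ = 0 then 0 else k * (k + 1) / 2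

/-- The pattern `h` occurs in `(N, 2 N]`: there is an arithmetic progression of `l` terms `x` with difference between `1`
and `(log N) ^ b` such that for all its terms `x`: `N < x` and `x + h k ≤ 2 N`, the primes in `[x, x + h k]` are exactly
the numbers `x + h i`, `0 ≤ i ≤ k`, and all these primes start almost prime chains of exact length `K` with the
parameters `r` and `N ^ δ`. -/
def Occurs (K : ℕ) {k : ℕ} (r : ℕ) (δ : ℝ) (l b N : ℕ) (h : Fin (k + 1) → ℕ) : Prop :=
  ∃ n d : ℕ, 1 ≤ d ∧ (d : ℝ) ≤ Real.log N ^ b ∧ ∀ j < l, N < n + j * d ∧ n + j * d + h (Fin.last k) ≤ 2 * N ∧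
    (∀ y ≤ h (Fin.last k), (n + j * d + y).Prime ↔ ∃ i, y = h i) ∧
    ∀ i, AlmostChain K r ((N : ℝ) ^ δ) (n + j * d + h i)

open Polynomial in
/-- the product of the forms -/
noncomputable def F (K : ℕ) : ℤ[X] := ∏ j ∈ Finset.Ico 1 K, (C ((2 : ℤ) ^ j) * (X + 1) - 1)

theorem F_eval (K : ℕ) (n : ℤ) : (F K).eval n = ∏ j ∈ Finset.Ico 1 K, ((2 : ℤ) ^ j * (n + 1) - 1) := by
  unfold F
  rw [Polynomial.eval_prod]
  refine prod_congr rfl fun a _ => ?_
  simp

theorem ch_cast (j p : ℕ) : ((ch j p : ℕ) : ℤ) = (2 : ℤ) ^ j * (p + 1) - 1 := by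
  unfold ch
  have h1 : 1 ≤ 2 ^ j * (p + 1) := Nat.one_le_iff_ne_zero.2 (by positivity)
  rw [Nat.cast_sub h1]
  push_cast
  ring

/-- a prime `ℓ` and a class modulo `ℓ` in which `c_K` is divisible by `ℓ` while `c_0, ..., c_(K-1)` are not -/
theorem cls (K : ℕ) (hK : 1 ≤ K) : ∃ ℓ c : ℕ, ℓ.Prime ∧ (ℓ : ℤ) ∣ (2 : ℤ) ^ K * (c + 1) - 1 ∧ ¬ (ℓ : ℤ) ∣ c ∧
    ∀ j, 1 ≤ j → j < K → ¬ (ℓ : ℤ) ∣ (2 : ℤ) ^ j * (c + 1) - 1 := by
  obtain ⟨ℓ, hℓ1, hℓ⟩ := Nat.exists_infinite_primes (2 ^ K + 2)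
  have hpow : ∀ i : ℕ, 1 ≤ i → i ≤ K → ¬ (ℓ : ℤ) ∣ (2 : ℤ) ^ i - 1 := by
    intro i hi hiK hd
    have h1 : (2 : ℤ) ^ i ≤ 2 ^ K := pow_le_pow_right₀ (by norm_num) hiK
    have h2 : (2 : ℤ) ^ 1 ≤ 2 ^ i := pow_le_pow_right₀ (by norm_num) hi
    have h3 : (ℓ : ℤ) ≤ (2 : ℤ) ^ i - 1 := Int.le_of_dvd (by linarith) hd
    have h4 : ((2 ^ K + 2 : ℕ) : ℤ) ≤ ℓ := by exact_mod_cast hℓ1
    push_cast at h4
    linarith
  have hcop : Nat.Coprime (2 ^ K) ℓ := by
    apply Nat.Coprime.pow_left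
    rw [Nat.coprime_primes Nat.prime_two hℓ]
    have : 0 < 2 ^ K := by positivity
    omega
  obtain ⟨u, hu⟩ : ∃ u : ℕ, (ℓ : ℤ) ∣ (2 : ℤ) ^ K * u - 1 ∧ 1 ≤ u := by
    obtain ⟨m, -, hm⟩ := Nat.exists_mul_mod_eq_one_of_coprime hcop hℓ.one_lt
    refine ⟨m, ?_, ?_⟩
    · have h1 : 2 ^ K * m ≡ 1 [MOD ℓ] := by
        unfold Nat.ModEq
        rw [hm, Nat.mod_eq_of_lt hℓ.one_lt]
      have h2 := (Nat.modEq_iff_dvd.1 h1.symm)
      push_cast at h2
      exact h2
    · rcases Nat.eq_zero_or_pos m with h0 | h0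
      · subst h0
        simp at hm
      · exact h0
  obtain ⟨hu1, hu2⟩ := hu
  obtain ⟨c, rfl⟩ : ∃ c, u = c + 1 := ⟨u - 1, by omega⟩
  push_cast at hu1
  have hℓZ : Prime (ℓ : ℤ) := Nat.prime_iff_prime_int.1 hℓ
  refine ⟨ℓ, c, hℓ, hu1, ?_, ?_⟩
  · intro hd
    apply hpow K hK le_rfl
    have h1 : (2 : ℤ) ^ K - 1 = ((2 : ℤ) ^ K * (c + 1) - 1) - 2 ^ K * c := by ring
    rw [h1]
    exact dvd_sub hu1 (hd.mul_left _)
  · intro j hj hjK hd
    apply hpow (K - j) (by omega) (by omega)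
    have h1 : (2 : ℤ) ^ K = 2 ^ (K - j) * 2 ^ j := by
      rw [← pow_add]
      congr 1
      omega
    have h2 : (2 : ℤ) ^ (K - j) - 1 = ((2 : ℤ) ^ K * (c + 1) - 1) - 2 ^ (K - j) * ((2 : ℤ) ^ j * (c + 1) - 1) := by
      rw [h1]
      ring
    rw [h2]
    exact dvd_sub hu1 (hd.mul_left _)

open Classical in
/-- **A positive proportion of the patterns made of shifted primes occurs, in every interval `(N, 2 N]`, as the pattern
of a string of consecutive primes all starting almost prime Cunningham chains of exact length `K`.** -/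
theorem result (K : ℕ) (hK : 1 ≤ K) (k : ℕ) (σ : ℤ) (hσ : σ = 0 ∨ σ = 1 ∨ σ = -1) :
    ∃ (c₁ c₂ δ : ℝ) (r : ℕ), 0 < c₁ ∧ 0 < δ ∧ ∀ᶠ X : ℕ in atTop,
      ((patterns σ k X).card : ℝ) ≤ c₂ * ((X : ℝ) ^ k / Real.log X ^ conditions σ k) ∧
      ∀ l : ℕ, ∃ b : ℕ, ∀ᶠ N : ℕ in atTop,
        c₁ * ((X : ℝ) ^ k / Real.log X ^ conditions σ k) ≤
          (((patterns σ k X).filter (fun h => Occurs K r δ l b N h)).card : ℝ) := by
  obtain ⟨ℓ, c, hℓ, h1, h2, h3⟩ := cls K hK
  have hℓZ : Prime (ℓ : ℤ) := Nat.prime_iff_prime_int.1 hℓ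
  obtain ⟨c₁, c₂, δ, r, hc₁, hδ, h⟩ := Pool.Agent.U364.ST.gen_shifts (F K) (fun n _ => by
      rw [F_eval, prod_ne_zero_iff]
      intro j hj h0
      rw [Finset.mem_Ico] at hj
      have h4 : (2 : ℤ) ∣ 2 ^ j := dvd_pow_self 2 (by omega)
      have h5 : (2 : ℤ) ∣ 1 := by
        have h6 : (1 : ℤ) = 2 ^ j * (n + 1) := by linarith
        rw [h6]
        exact h4.mul_right _
      norm_num at h5) (fun p hp => by
      refine ⟨-1, fun hd => ?_⟩
      rw [F_eval] at hd
      have h4 : IsUnit ((-1 : ℤ) * ∏ j ∈ Finset.Ico 1 K, ((2 : ℤ) ^ j * (-1 + 1) - 1)) := by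
        simp only [neg_add_cancel, mul_zero, zero_sub, prod_const]
        exact (isUnit_one.neg).mul (isUnit_one.neg.pow _)
      have h5 := isUnit_of_dvd_unit hd h4
      rw [Int.isUnit_iff] at h5
      have := hp.one_lt
      omega) ℓ c hℓ.squarefree (by
      rw [IsCoprime.mul_left_iff]
      constructor
      · exact ((Nat.Prime.coprime_iff_not_dvd hℓ).2 (fun hd => h2 (by exact_mod_cast hd))).symm.isCoprime
      · rw [F_eval]
        apply IsCoprime.prod_left
        intro j hj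
        rw [Finset.mem_Ico] at hj
        exact ((Prime.coprime_iff_not_dvd hℓZ).2 (h3 j hj.1 hj.2)).symm) k σ hσ (AlmostChain K) ℓ (by
      intro r w p hp hpc hpℓ hAP
      refine ⟨fun j hj1 hj2 => ?_, fun hpr => ?_⟩
      · apply Pool.Agent.R498.MP.AP_nat
        refine Pool.Agent.R498.MP.AP_dvd r w _ _ hAP ?_
        rw [F_eval, ch_cast]
        exact dvd_prod_of_mem (fun j => (2 : ℤ) ^ j * ((p : ℤ) + 1) - 1) (Finset.mem_Ico.2 ⟨hj1, hj2⟩)
      · have h4 : (ℓ : ℤ) ∣ ((ch K p : ℕ) : ℤ) := by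
          rw [ch_cast]
          have h5 : (ℓ : ℤ) ∣ (p : ℤ) - c := Nat.modEq_iff_dvd.1 hpc.symm
          have h6 : (2 : ℤ) ^ K * (p + 1) - 1 = ((2 : ℤ) ^ K * (c + 1) - 1) + 2 ^ K * ((p : ℤ) - c) := by ring
          rw [h6]
          exact dvd_add h1 (h5.mul_left _)
        have h5 : ℓ ∣ ch K p := by exact_mod_cast h4
        have h6 := (Nat.prime_dvd_prime_iff_eq hℓ hpr).1 h5
        have h7 : 2 * (p + 1) ≤ 2 ^ K * (p + 1) := by
          apply Nat.mul_le_mul_right
          calc 2 = 2 ^ 1 := by norm_num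
            _ ≤ 2 ^ K := Nat.pow_le_pow_right (by norm_num) hK
        unfold ch at h6
        omega)
  refine ⟨c₁, c₂, δ, r, hc₁, hδ, ?_⟩
  filter_upwards [h] with X hX
  refine ⟨hX.1, fun l => ?_⟩
  obtain ⟨b, hb⟩ := hX.2 l
  refine ⟨b, ?_⟩
  filter_upwards [hb] with N hN
  refine hN.trans ?_
  have : ((Pool.Agent.U364.ST.patterns σ k X).filter
      (fun h => Pool.Agent.U364.ST.OccP (AlmostChain K) ℓ c r δ l b N h)).card ≤
      ((patterns σ k X).filter (fun h => Occurs K r δ l b N h)).card := by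
    apply card_le_card
    intro z hz
    rw [mem_filter] at hz ⊢
    refine ⟨hz.1, ?_⟩
    obtain ⟨n, d, e1, e2, e3⟩ := hz.2
    refine ⟨n, d, e1, e2, fun j hj => ?_⟩
    obtain ⟨g1, g2, g3, g4⟩ := e3 j hj
    exact ⟨g1, g2, g3, fun i => (g4 i).2⟩
  exact_mod_cast this

end Pool.Agent.Results.MP_77cbc6_nt.ExactAlmostChains
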