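import Pool.Agent.U847.XI
import Pool.Agent.U847.XR
import Pool.Agent.U847.XN

/-!
# Chains of primes `x ↦ 2 x + 1 + N` of every exact length, for almost all multiples `N` of random integers with decaying
characteristic functions: the number of the chains

Chains of primes `x_0 = p`, `x_{j+1} = 2 x_j + 1 + N_j` with the even numbers `N_j = h M (c_j + κ_j v_j)`, where the `v_j` are independent random integers with `k` digits in base `b` whose characteristic functions decay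
exponentially in the number of the digits at which the frequency is not near a rational number with a bounded denominator.
The sum in the theorem is the probability that the random integers do not have the property.

From Mathlib: `primorial y`: the product of the primes `≤ y`; `Finset.Icc 1 x`: the integers from `1` to `x`;
`Fintype.piFinset S`: the vectors `v` with `v j ∈ S j`.

Method: the sieve with error terms smaller than all powers of `d` from the exponential sums at the fractions with a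
denominator free of small primes (`Pool.Agent.U847.XC`, `XD`), the second moment and the number of the primes in random
translates of dense sequences (`Pool.Agent.U847.XG`), several translates (`Pool.Agent.U847.XH`, `XI`), affine maps with translations
which depend on the earlier terms (`Pool.Agent.U847.XL`, `XM`, `XN`).
The starting files `Pool.Agent.N625.PT.X2` - `X15` do the first steps for the integers with exchangeable blocks of digits;
here they are done for all the families of laws with the condition `Decay`. 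

The condition `Decay` on the characteristic functions is satisfied by the integers whose digits are the labels of the walks
between two vertices of a graph, for example of a Cayley graph (`Pool.Agent.U847.XR.w_decay`), whose digits form a correctly
nested word of brackets (`br_decay`), or a Markov random field with flexible digits on any graph of positions of bounded
degree (`gf_decay`); by independent digits none of which is almost constant; it is stable under mixtures and under adding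
an independent random integer (with a larger number of digits). 
-/

set_option autoImplicit false

namespace Pool.Agent.Results.MP_77cbc6_nt.ExactChainsAnyLaw

open Finset

open Classical in
/-- the number of the positions `j < k` for which `M b^j θ` has distance at least `δ` from all the integers -/
noncomputable def farPos (b M k : ℕ) (δ θ : ℝ) : ℕ :=
  ((range k).filter (fun j : ℕ => ∀ n : ℤ, δ ≤ |(M : ℝ) * (b : ℝ) ^ j * θ - n|)).card

/-- a family of laws of random integers `0 ≤ v < b^k`: `C k p` says that the law `p` belongs to the family. The condition: the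
characteristic functions decay exponentially in the number of the far positions, `|E e(v θ)| ≤ (k+2)^T μ^farPos` for all `θ` -/
structure Decay (b M : ℕ) (C : ℕ → (ℕ → ℝ) → Prop) : Prop where
  nonneg : ∀ k p, C k p → ∀ v, 0 ≤ p v
  sum : ∀ k p, C k p → ∑ v ∈ range (b ^ k), p v = 1
  decay : ∀ δ : ℝ, 0 < δ → ∃ (μ : ℝ) (T : ℕ), 0 < μ ∧ μ < 1 ∧ ∀ k p, C k p → ∀ θ : ℝ,
    ‖∑ v ∈ range (b ^ k), (p v : ℂ) * Complex.exp (2 * Real.pi * Complex.I * (v * θ))‖ ≤ ((k : ℝ) + 2) ^ T * μ ^ farPos b M k δ θ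

/-- the product of `1 - 1/q` over the primes `q ≤ y` -/
noncomputable def V (y : ℕ) : ℝ := ∏ q ∈ (Icc 1 y).filter Nat.Prime, (1 - 1 / (q : ℝ))

/-- the multiple of the product of the primes `≤ y` given by the integers `h` and `c + κ v` -/
def Nv (y h : ℕ) (c κ : ℤ) (v : ℕ) : ℤ := ((primorial y * h : ℕ) : ℤ) * (c + κ * v)

/-- the sequence `x_0 = p`, `x_{j+1} = 2 x_j + 1 + N_j` -/
def chain {r : ℕ} (N : Fin r → ℤ) (p : ℤ) : ℕ → ℤ
  | 0 => p
  | j + 1 => 2 * chain N p j + 1 + (if h : j < r then N ⟨j, h⟩ else 0)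

/-- the primes `p ≤ x` such that the terms `2 ^ j * (p + 1) - 1`, `1 ≤ j ≤ s`, of the Cunningham sequence of `p` are prime to `D` -/
def Adm (D s x : ℕ) : Finset ℕ := (Icc 1 x).filter (fun p : ℕ => p.Prime ∧ ∀ j ∈ Icc 1 s, (2 ^ j * (p + 1) - 1).Coprime D)

open Classical in
/-- the primes `p ≤ x` such that the terms `x_1, ..., x_s` of the sequence are primes and `x_{s+1}` is not a prime -/
noncomputable def Exact {r : ℕ} (N : Fin r → ℤ) (s x : ℕ) : Finset ℕ :=
  (Icc 1 x).filter (fun p : ℕ => (p.Prime ∧ ∀ j ∈ Icc 1 s, (chain N p j).toNat.Prime) ∧ ¬ (chain N p (s + 1)).toNat.Prime)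

open Pool.Agent.U847.XP (orb Nr AdmC GoodC)

lemma chain_eq {r : ℕ} (N : Fin r → ℤ) (p : ℤ) (j : ℕ) : chain N p j = orb 2 1 (fun l => if h : l < r then N ⟨l, h⟩ else 0) p j := by
  induction j with
  | zero => rfl
  | succ j ih =>
    simp only [chain, orb]
    rw [ih]
    push_cast
    ring

lemma orb_zero (p : ℕ) (hp : 1 ≤ p) (j : ℕ) : orb 2 1 (fun _ => 0) (p : ℤ) j = ((2 ^ j * (p + 1) - 1 : ℕ) : ℤ) := by
  have h1 : 1 ≤ 2 ^ j := Nat.one_le_two_pow
  have h2 : 1 ≤ 2 ^ j * (p + 1) := Nat.mul_pos h1 (by omega)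
  induction j with
  | zero =>
    simp only [orb, pow_zero, one_mul]
    norm_num [Nat.sub_add_cancel hp]
  | succ j ih =>
    have h3 : 1 ≤ 2 ^ j := Nat.one_le_two_pow
    have h4 : 1 ≤ 2 ^ j * (p + 1) := Nat.mul_pos h3 (by omega)
    simp only [orb]
    rw [ih h3 h4]
    push_cast [h2, h4, hp]
    ring

lemma adm_eq (D s x : ℕ) : Adm D s x = AdmC 2 1 D s x := by
  classical
  unfold Adm AdmC
  apply filter_congr
  intro p hp
  have hp1 := (mem_Icc.1 hp).1
  constructor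
  · rintro ⟨h1, h2⟩
    refine ⟨h1, fun j hj1 hj2 => ?_⟩
    rw [orb_zero p hp1, Nat.isCoprime_iff_coprime]
    exact h2 j (mem_Icc.2 ⟨hj1, hj2⟩)
  · rintro ⟨h1, h2⟩
    refine ⟨h1, fun j hj => ?_⟩
    have := h2 j (mem_Icc.1 hj).1 (mem_Icc.1 hj).2
    rwa [orb_zero p hp1, Nat.isCoprime_iff_coprime] at this

open Classical in
/-- the primes `p ≤ x` such that the terms `x_1, ..., x_s` of the sequence are primes too -/
noncomputable def GoodA {r : ℕ} (N : Fin r → ℤ) (s x : ℕ) : Finset ℕ :=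
  (Icc 1 x).filter (fun p : ℕ => p.Prime ∧ ∀ j ∈ Icc 1 s, (chain N p j).toNat.Prime)

lemma good_eq {r : ℕ} (y h : ℕ) (c κ : Fin r → ℤ) (v : Fin r → ℕ) (s x : ℕ) :
    GoodA (fun j => Nv y h (c j) (κ j) (v j)) s x = GoodC 2 1 (Nr y h c κ v) s x := by
  classical
  unfold GoodA GoodC
  ext p
  rw [@mem_filter _ _ (_) _ _, @mem_filter _ _ (_) _ _]
  apply and_congr_right
  intro _
  have e : ∀ j, chain (fun j => Nv y h (c j) (κ j) (v j)) (p : ℤ) j = orb 2 1 (Nr y h c κ v) (p : ℤ) j := fun j => chain_eq _ _ _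
  constructor
  · rintro ⟨h1, h2⟩
    refine ⟨h1, fun j hj1 hj2 => ?_⟩
    rw [← e]
    exact h2 j (mem_Icc.2 ⟨hj1, hj2⟩)
  · rintro ⟨h1, h2⟩
    refine ⟨h1, fun j hj => ?_⟩
    rw [e]
    exact h2 j (mem_Icc.1 hj).1 (mem_Icc.1 hj).2

lemma low (b : ℕ) (hb : 2 ≤ b) (r : ℕ) (J C K₁ : ℕ) (θ : ℝ) : ∃ d₀ : ℕ, ∀ d : ℕ, d₀ ≤ d → ∀ y : ℕ, θ * Real.log d ≤ y → y ≤ K₁ * Real.log d →
    ∀ h : ℕ, 1 ≤ h → h ≤ d ^ J → ∀ x : ℕ, b ^ d ≤ x * d ^ C → x ≤ b ^ d * d ^ C →
    ∀ s ≤ r, (x : ℝ) ≤ (Adm (primorial y * h) s x).card * (d : ℝ) ^ (2 * K₁ + J + 3) := by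
  obtain ⟨k₀, h0⟩ := Pool.Agent.U847.XP.adm_fixed 2 1 (-1) (by norm_num) (by norm_num) b C (2 * K₁ + J) hb
  refine ⟨max k₀ 3, fun d hd y hy1 hy2 h hh1 hh2 x hx1 hx2 s hs => ?_⟩
  rw [adm_eq]
  exact h0 d (by omega) x hx1 hx2 (primorial y * h) (Nat.mul_pos (primorial_pos y) hh1)
    (Pool.Agent.N625.PT.mult_small K₁ J d y h (by omega) hy2 hh2) s

lemma adm_mono (D s x : ℕ) : (Adm D (s + 1) x).card ≤ (Adm D s x).card := by
  apply card_le_card
  unfold Adm
  intro p hp
  rw [mem_filter] at hp ⊢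
  refine ⟨hp.1, hp.2.1, fun j hj => hp.2.2 j ?_⟩
  rw [mem_Icc] at hj ⊢
  omega

lemma exact_card {r : ℕ} (N : Fin r → ℤ) (s x : ℕ) :
    ((Exact N s x).card : ℝ) = (GoodA N s x).card - (GoodA N (s + 1) x).card := by
  have h1 : Exact N s x = GoodA N s x \ GoodA N (s + 1) x := by
    ext p
    unfold Exact GoodA
    rw [mem_sdiff, @mem_filter _ _ (_) _ _, @mem_filter _ _ (_) _ _, @mem_filter _ _ (_) _ _]
    constructor
    · rintro ⟨g1, g2, g3⟩
      refine ⟨⟨g1, g2⟩, fun g4 => g3 (g4.2.2 (s + 1) (mem_Icc.2 ⟨by omega, le_rfl⟩))⟩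
    · rintro ⟨⟨g1, g2⟩, g3⟩
      refine ⟨g1, g2, fun g4 => g3 ⟨g1, g2.1, fun j hj => ?_⟩⟩
      rw [mem_Icc] at hj
      rcases Nat.lt_or_ge s j with g5 | g5
      · have : j = s + 1 := by omega
        rw [this]
        exact g4
      · exact g2.2 j (mem_Icc.2 ⟨hj.1, g5⟩)
  have h2 : GoodA N (s + 1) x ⊆ GoodA N s x := by
    intro p hp
    unfold GoodA at hp ⊢
    rw [@mem_filter _ _ (_) _ _] at hp ⊢
    refine ⟨hp.1, hp.2.1, fun j hj => hp.2.2 j ?_⟩
    rw [mem_Icc] at hj ⊢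
    omega
  rw [h1, card_sdiff_of_subset h2, Nat.cast_sub (card_le_card h2)]

lemma decay_conv {b M : ℕ} {C : ℕ → (ℕ → ℝ) → Prop} (h : Decay b M C) : Pool.Agent.U847.XR.Decay b M C :=
  ⟨h.nonneg, h.sum, h.decay⟩

open Classical in
/-- the law for classes of distributions -/
theorem main (b q₀ : ℕ) (hb : 2 ≤ b) (r : ℕ) (Cl : Fin r → ℕ → (ℕ → ℝ) → Prop) (hC : ∀ j, Pool.Agent.U847.XP.SCls b q₀ (Cl j))
    (κ : Fin r → ℤ) (hκ : ∀ j, κ j ≠ 0) (B J C K₁ : ℕ) (θ : ℝ) (hθ : 0 < θ) (ε : ℝ) (hε : 0 < ε) (hε1 : ε ≤ 1) :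
    ∃ d₀ : ℕ, ∀ d : ℕ, d₀ ≤ d → ∀ μ : Fin r → ℕ → ℝ, (∀ j, Cl j d (μ j)) →
    ∀ y : ℕ, θ * Real.log d ≤ y → y ≤ K₁ * Real.log d → ∀ h : ℕ, 1 ≤ h → h ≤ d ^ J →
    ∀ x : ℕ, b ^ d ≤ x * d ^ C → x ≤ b ^ d * d ^ C → ∀ c : Fin r → ℤ, (∀ j, |c j| ≤ B * (b : ℤ) ^ d) →
      ∑ v ∈ Fintype.piFinset (fun _ : Fin r => range (b ^ d)), (if ((∀ j, 0 < Nv y h (c j) (κ j) (v j)) → ∀ s < r,
          |((Exact (fun j => Nv y h (c j) (κ j) (v j)) s x).card : ℝ) - (Adm (primorial y * h) s x).card / (V y * (d * Real.log b)) ^ s| ≤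
            ε * ((Adm (primorial y * h) s x).card / (V y * (d * Real.log b)) ^ s))
        then 0 else ∏ j, μ j (v j)) ≤ ε := by
  classical
  obtain ⟨k₀, h0⟩ := Pool.Agent.U847.XP.chain_all b q₀ hb r Cl hC κ hκ 2 1 (by norm_num) (by norm_num) B J (2 * K₁ + J + 3) C K₁ θ hθ (ε / 2)
    (by linarith) (by linarith)
  obtain ⟨k₁, h1⟩ := low b hb r J C K₁ θ
  obtain ⟨k₂, h2⟩ := Pool.Agent.N625.PT.Q_large b K₁ hb (4 / ε)
  refine ⟨max (max k₀ k₁) k₂, fun d hd μ hμ y hy1 hy2 h hh1 hh2 x hx1 hx2 c hc => ?_⟩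
  have h3 := h1 d (by omega) y hy1 hy2 h hh1 hh2 x hx1 hx2
  simp only [adm_eq] at h3
  have hQ := h2 d (by omega) y hy2
  refine le_trans (sum_le_sum fun v _ => ?_) ((h0 d (by omega) μ hμ y hy1 hy2 c hc h hh1 hh2 x hx1 hx2 h3).trans (by linarith))
  have hw0 : 0 ≤ ∏ j, μ j (v j) := prod_nonneg fun j _ => (hC j).nonneg _ _ (hμ j) _
  simp only [← adm_eq, ← good_eq]
  obtain ⟨L, hL⟩ : ∃ L : ℝ, L = V y * (d * Real.log b) := ⟨_, rfl⟩
  have hLQ : 4 / ε ≤ L := by rw [hL]; exact hQ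
  have hL0 : 0 < L := lt_of_lt_of_le (by positivity) hLQ
  have hVz : Pool.Agent.H373R2.T7.Vz y * (d * Real.log b) = L := hL.symm
  rw [hVz, ← hL]
  split_ifs with q1 q2
  · exact le_rfl
  · exact hw0
  · exfalso
    apply q1
    rename_i q2
    intro hpos s hs
    have g1 := q2 hpos s hs.le
    have g2 := q2 hpos (s + 1) hs
    rw [exact_card]
    obtain ⟨m, hm⟩ : ∃ m : ℝ, m = (Adm (primorial y * h) s x).card := ⟨_, rfl⟩
    obtain ⟨m', hm'⟩ : ∃ m' : ℝ, m' = (Adm (primorial y * h) (s + 1) x).card := ⟨_, rfl⟩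
    have hmm : m' ≤ m := by rw [hm, hm']; exact_mod_cast adm_mono _ s x
    have hm0 : 0 ≤ m' := by rw [hm']; exact Nat.cast_nonneg _
    rw [← hm] at g1 ⊢
    rw [← hm'] at g2
    have e1 : m' / L ^ (s + 1) ≤ ε / 4 * (m / L ^ s) := by
      have e2 : m' / L ^ (s + 1) = (m' / L ^ s) * (1 / L) := by
        rw [pow_succ]
        field_simp
      have e3 : 1 / L ≤ ε / 4 := by
        rw [div_le_div_iff₀ hL0 (by norm_num)]
        rw [div_le_iff₀ hε] at hLQ
        linarith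
      have e4 : m' / L ^ s ≤ m / L ^ s := div_le_div_of_nonneg_right hmm (by positivity)
      rw [e2]
      calc m' / L ^ s * (1 / L) ≤ m / L ^ s * (ε / 4) := by
            apply mul_le_mul e4 e3 (by positivity)
            exact div_nonneg (hm0.trans hmm) (by positivity)
        _ = _ := by ring
    have e5 : 0 ≤ m' / L ^ (s + 1) := by positivity
    have e6 : 0 ≤ m / L ^ s := div_nonneg (hm0.trans hmm) (by positivity)
    have g0 : (0 : ℝ) ≤ (GoodA (fun j => Nv y h (c j) (κ j) (v j)) (s + 1) x).card := Nat.cast_nonneg _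
    rw [abs_le] at g1 g2 ⊢
    constructor
    · nlinarith
    · nlinarith
  · exact le_rfl

open Classical in
/-- Let `Cl j` be families of laws of random integers with digits in base `b`, `Decay b M₀ (Cl j)`, let `d` be large, and let
`v j < b ^ d` be independent random integers with laws in the families. Let `r`, `κ j ≠ 0` for `j < r`, `B`, `J`, `C`, `K₁`, `θ > 0` and `0 < ε ≤ 1` be fixed, let `y` be between `θ log d` and
`K₁ log d` (`θ > 0` is arbitrary), `M` the product of the primes `≤ y`, `1 ≤ h ≤ d ^ J`, `|c j| ≤ B b ^ d`,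
`N_j = M h (c_j + κ_j v_j)`, and let `x` be any integer with `b ^ d ≤ x d ^ C`, `x ≤ b ^ d d ^ C`. For `s ≤ r` let `A_s` be the
number of the primes `p ≤ x` such that the terms `2 ^ j * (p + 1) - 1`, `1 ≤ j ≤ s`, are prime to `M h`; it is at least
`x / d ^ (2 K₁ + J + 3)`. Then with a probability of at least `1 - ε`: if all the `N_j` are positive, then for ALL `s < r` at once the number of the primes
`p ≤ x` such that `x_1, ..., x_s` are primes and `x_{s+1}` is not a prime (chains of the exact length `s + 1`) is `A_s / (V y log b ^ d) ^ s` up to a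
relative error of at most `ε`, where `x_0 = p`, `x_{j+1} = 2 x_j + 1 + N_j`. -/
theorem result (r : ℕ) (b M₀ : ℕ) (hb : 2 ≤ b) (hM₀ : 1 ≤ M₀) (Cl : Fin r → ℕ → (ℕ → ℝ) → Prop) (hC : ∀ j, Decay b M₀ (Cl j))
    (κ : Fin r → ℤ) (hκ : ∀ j, κ j ≠ 0) (B J C K₁ : ℕ) (θ : ℝ) (hθ : 0 < θ) (ε : ℝ) (hε : 0 < ε) (hε1 : ε ≤ 1) :
    ∃ d₀ : ℕ, ∀ d : ℕ, d₀ ≤ d → ∀ μ : Fin r → ℕ → ℝ, (∀ j, Cl j d (μ j)) →
    ∀ y : ℕ, θ * Real.log d ≤ y → y ≤ K₁ * Real.log d → ∀ h : ℕ, 1 ≤ h → h ≤ d ^ J →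
    ∀ x : ℕ, b ^ d ≤ x * d ^ C → x ≤ b ^ d * d ^ C → ∀ c : Fin r → ℤ, (∀ j, |c j| ≤ B * (b : ℤ) ^ d) →
      (∀ s ≤ r, (x : ℝ) ≤ (Adm (primorial y * h) s x).card * (d : ℝ) ^ (2 * K₁ + J + 3)) ∧
      ∑ v ∈ Fintype.piFinset (fun _ : Fin r => range (b ^ d)), (if ((∀ j, 0 < Nv y h (c j) (κ j) (v j)) → ∀ s < r,
          |((Exact (fun j => Nv y h (c j) (κ j) (v j)) s x).card : ℝ) - (Adm (primorial y * h) s x).card / (V y * (d * Real.log b)) ^ s| ≤
            ε * ((Adm (primorial y * h) s x).card / (V y * (d * Real.log b)) ^ s))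
        then 0 else ∏ j, μ j (v j)) ≤ ε := by
  obtain ⟨d₀, h0⟩ := main b _ hb r Cl (fun j => (decay_conv (hC j)).scls hb hM₀) κ hκ B J C K₁ θ hθ ε hε hε1
  obtain ⟨d₁, h1⟩ := low b hb r J C K₁ θ
  exact ⟨max d₀ d₁, fun d hd μ hμ y hy1 hy2 h hh1 hh2 x hx1 hx2 c hc => ⟨h1 d (by omega) y hy1 hy2 h hh1 hh2 x hx1 hx2, h0 d (by omega) μ hμ y hy1 hy2 h hh1 hh2 x hx1 hx2 c hc⟩⟩

end Pool.Agent.Results.MP_77cbc6_nt.ExactChainsAnyLaw
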