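import Mathlib
import Pool.Agent.U289.NX.Orb

/-!
# Free sets of times, with clusters near almost all members of every array

Let `S z = a z + b` with `a ≥ 2` and `b` coprime to `a`. For `a = 2`, `b = 1` the orbits are the Cunningham chains
of the first kind. Let `q ≥ 1`, let `τ_0, τ_1, …` be any distinct natural numbers, `0 < ε < 1`, and let `k_j`,
`m_j ≥ 1` be any integers. There are numbers `C_0, C_1, …` such that for ALL natural numbers `v_{j,i}`, `i < k_j`,
and ALL finitely supported probability measures `μ_0, μ_1, …` on the natural numbers there are a set `E` of natural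
numbers and `J_0 < J_1 < …` with the following two properties.

(1) For infinitely many `t` the set of the `j`, for which at least `(1 - ε) k_j` of the intervals
`[v_{j,i}, v_{j,i} + C_j]` contain at least `m_j` elements of `E`, has `μ_t`-measure at least `1 - ε`.

(2) The elements of `E` can be combined freely: for all `k`, `c` and `i_1 < ⋯ < i_k` with `k, c ≤ i_1`, for every
length `l` and every `B` there are `C` and arbitrarily large `N`, the same for ALL choices of `s_1, …, s_k ≤ c`
in `E` (equal or not) and all `J ⊆ {1, …, k}`, such that for some `1 ≤ d ≤ (log N) ^ C` there are at least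
`N / (log N) ^ C` integers `n ≤ N` with: for each `m = n, n + d, …, n + (l - 1) d`, among the iterates of `m` at
the times `t_u = q (τ_{J_{i_u}} + s_u)` exactly those with `u ∈ J` are prime, and NO iterate of `m` at a time
`≤ B` which is not divisible by `q` is prime.

So, for `q = 2` and `B > t_k + 1`, there are many `m` for which the iterates at all the times `t_1, …, t_k` are
primes which are chains of exact length one, all the other primes among the first `B` iterates being at even
times, and this holds for all the `k`-tuples of times taken from `E` in this way, `k` arbitrary. (The numbers `C_j` do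
not depend on the `v_{j,i}` and the measures; `E` does.)

The starting files contain: one exact pattern of positions with clusters near most members of every array
(`MP_c77da8_nt.MostRowsOfPositions`; there all positions used belong to one pattern of primes, here all elements of
`E` can be combined independently of each other, with all patterns, numbers `N / (log N) ^ C`, and common `N`);
almost all vectors of a Bohr set of times (`MP_77cbc6_nt.BohrSetsOfTimes`, for fixed `k`); in the hand-ins
`MP_8923e7_nt.FreePositions` and `MP_bf63dc_nt.FreeSlopes` (same author, other forms) the free sets have the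
proportion `5/18` of given windows, here bounded delays give almost everything.

Proof. Fix an ultrafilter on the indices `j` of `τ_j`. A set of times is free if for every word in its elements the
iterated limit of the statement (2) is true (here all finite sets of forsaken iterates are required to be
composite, and the scales may be multiplied by constants, so that shifting all times by a constant, which is the
substitution of an iterate of `S` for `n`, preserves free sets). The coloured Maynard-Tao theorem with the constant
`18/5`, all patterns, forced composite values and narrow progressions (`Pool.Agent.Y827.HN.patR`, starting files) and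
a pigeonhole argument give, for every weight on finitely many times divisible by `a - 1`, a free set with `5/18`
of the weight. If the theorem with one point and proportion `ρ < 1` were false for all `(C_j)`, configurations
placed inside each other (the idea is that of the starting library `Pool.Agent.N790.BP.Conf`; proved here for
semigroups of substitutions) would give the proportion `ρ ^ n < 5/18`. Infinitely many measures: Pták's lemma on
convex means (`Pool.Agent.Helper639.Tk.ptak`, starting files) and limits of free sets.
-/

set_option autoImplicit false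

namespace Pool.Agent.Results.MP_77cbc6_nt.FreeTimes

open Filter Finset

/-- the map `z ↦ a z + b`; for `a = 2`, `b = 1` that of the Cunningham chains of the first kind -/
def S (a : ℕ) (b : ℤ) (z : ℤ) : ℤ := a * z + b

/-- the iterates of `m` at the times `t u` with `u ∈ J` are prime, those at the times `t u` with `u ∉ J` are
not, and no iterate at a time `v ≤ B` not divisible by `q` is prime -/
def Pattern (a : ℕ) (b : ℤ) (q B : ℕ) {k : ℕ} (t : Fin k → ℕ) (J : Finset (Fin k)) (m : ℕ) : Prop :=
  (∀ u : Fin k, ((S a b)^[t u] m).toNat.Prime ↔ u ∈ J) ∧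
    ∀ v ≤ B, ¬ q ∣ v → ¬ ((S a b)^[v] m).toNat.Prime

open Classical in
/-- the number of the `1 ≤ n ≤ N` such that all of `n, n + d, …, n + (l - 1) d` have the pattern -/
noncomputable def count (a : ℕ) (b : ℤ) (q B : ℕ) {k : ℕ} (t : Fin k → ℕ) (J : Finset (Fin k)) (l d N : ℕ) : ℕ :=
  ((Icc 1 N).filter (fun n : ℕ => ∀ i < l, Pattern a b q B t J (n + i * d))).card

/-- all patterns occur, at arbitrarily large common scales `N`, for all the vectors of times in `𝓣` -/
def AllGood (a : ℕ) (b : ℤ) (q : ℕ) {k : ℕ} (𝓣 : Set (Fin k → ℕ)) : Prop :=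
  ∀ l B : ℕ, ∃ C : ℕ, ∃ᶠ N : ℕ in atTop, ∀ t ∈ 𝓣, ∀ J : Finset (Fin k),
    ∃ d : ℕ, 1 ≤ d ∧ (d : ℝ) ≤ (Real.log N) ^ C ∧
      (N : ℝ) / (Real.log N) ^ C ≤ (count a b q B t J l d N : ℝ)

/-- the property `Q` holds for at least `(1 - ε) k` of the numbers `i < k` -/
def Most (ε : ℝ) (k : ℕ) (Q : ℕ → Prop) : Prop := ∃ R ⊆ range k, (1 - ε) * k ≤ (R.card : ℝ) ∧ ∀ i ∈ R, Q i

open Classical in
/-- **Free sets of times.** -/
theorem result (a : ℕ) (b : ℤ) (ha : 2 ≤ a) (hab : IsCoprime (a : ℤ) b) (q : ℕ) (hq : 1 ≤ q)
    (τ : ℕ → ℕ) (hτ : Function.Injective τ)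
    (ε : ℝ) (hε : 0 < ε) (hε1 : ε < 1) (k m : ℕ → ℕ) (hk : ∀ j, 1 ≤ k j) (hm : ∀ j, 1 ≤ m j) :
    ∃ C : ℕ → ℕ, ∀ (v : ℕ → ℕ → ℕ) (μ : ℕ → ℕ → ℝ) (T : ℕ → ℕ), (∀ t j, 0 ≤ μ t j) →
      (∀ t, ∑ j ∈ range (T t), μ t j = 1) →
      ∃ (E : Set ℕ) (J : ℕ → ℕ), StrictMono J ∧
        (∃ᶠ t in atTop, 1 - ε ≤ ∑ j ∈ (range (T t)).filter (fun j => Most ε (k j) (fun i =>
          m j ≤ (E ∩ Set.Icc (v j i) (v j i + C j)).ncard)), μ t j) ∧
        ∀ (n c : ℕ) (i : Fin n → ℕ), StrictMono i → (∀ t, n ≤ i t ∧ c ≤ i t) →
          AllGood a b q {h : Fin n → ℕ | ∃ s : Fin n → ℕ, (∀ t, s t ∈ E ∧ s t ≤ c) ∧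
            ∀ t, h t = q * (τ (J (i t)) + s t)} := by
  obtain ⟨C, hC⟩ := Pool.Agent.U289.NX.orb a b ha hab q hq τ hτ ε hε hε1 k m hk hm
  refine ⟨C, fun v μ T hμ hμ1 => ?_⟩
  obtain ⟨E, J, hJ, h1, h2⟩ := hC v μ T hμ hμ1
  refine ⟨E, J, hJ, h1.mono fun t ht => ht.trans (le_of_eq ?_), fun n c i hi hnc l B => ?_⟩
  · exact Pool.Agent.U289.NX.sum_ind (T t) (μ t) (fun j => Most ε (k j) (fun i =>
      m j ≤ (E ∩ Set.Icc (v j i) (v j i + C j)).ncard))
  · obtain ⟨C', hC'⟩ := h2 n c i hi hnc l B
    refine ⟨C', hC'.mono fun N hN t ht J' => ?_⟩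
    obtain ⟨d, hd1, hd2, hd3⟩ := hN t ht J'
    refine ⟨d, hd1, hd2, hd3.trans (le_of_eq ?_)⟩
    unfold Pool.Agent.U289.NX.startsO count
    exact congrArg Nat.cast (congrArg Finset.card (filter_congr fun x _ => Iff.rfl))

end Pool.Agent.Results.MP_77cbc6_nt.FreeTimes
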